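import Pool.Agent.W133.DQ.StB

set_option autoImplicit false

open scoped ContDiff
open Set Filter Topology

namespace Pool.Agent.W214.DQ

open Pool.Agent.W133.DQ

theorem NB_mono {r : ℕ} {u : P2 → ℝ} {b b' : ℝ} (h : NB r u b) (hb : b ≤ b') : NB r u b' :=
  fun p => (h p).trans hb

theorem NB_zero (r : ℕ) : NB r (fun _ => (0 : ℝ)) 0 := by
  intro p
  have h : iteratedFDeriv ℝ r (fun _ : P2 => (0 : ℝ)) = 0 := iteratedFDeriv_fun_zero
  rw [h]
  simp

/-- one order -/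
theorem stepL {M r : ℕ} {δ C : ℝ} (hr : 1 ≤ r) (hδ : 0 ≤ δ) (hC : 0 ≤ C)
    (hEC : ∀ u v : P2 → ℝ, ContDiff ℝ ∞ u →
      ContDiff ℝ ∞ v → ∀ a δu δv bu bv : ℝ, 0 ≤ a → 0 ≤ δu → 0 ≤ δv → 0 ≤ bu → 0 ≤ bv →
      (∀ j : ℕ, 1 ≤ j → j < r → NB j u a ∧ NB j v a) → NB 1 u δu → NB 1 v δv → NB r u bu →
      NB r v bv → NB r (star u v) ((1 + δu) * bv + (1 + δv) ^ r * bu + C * a ^ 2 * (1 + a) ^ r))
    (w : ℕ → P2 → ℝ) (hw : ∀ i, ContDiff ℝ ∞ (w i)) (hc : ∀ k ≤ M, ContDiff ℝ ∞ (chain w k))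
    (h1 : ∀ i, i < M → NB 1 (w i) δ) (hc1 : ∀ k ≤ M, NB 1 (chain w k) 1)
    (a b : ℝ) (ha : 0 ≤ a) (hb : 0 ≤ b)
    (hlow : ∀ i, i < M → ∀ j : ℕ, 1 ≤ j → j < r → NB j (w i) a)
    (hclow : ∀ k ≤ M, ∀ j : ℕ, 1 ≤ j → j < r → NB j (chain w k) a)
    (htop : ∀ i, i < M → NB r (w i) b) :
    ∀ k ≤ M, NB r (chain w k)
      ((1 + δ) ^ k * (k * (2 ^ r * b + C * a ^ 2 * (1 + a) ^ r))) := by
  intro k
  induction k with
  | zero =>
    intro _
    have h := NB_zero r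
    refine NB_mono (u := chain w 0) h ?_
    simp
  | succ k ih =>
    intro hk
    have ihk := ih (by omega)
    have hX : 0 ≤ 2 ^ r * b + C * a ^ 2 * (1 + a) ^ r := by positivity
    have h := hEC (w k) (chain w k) (hw k) (hc k (by omega)) a δ 1 b _ ha hδ zero_le_one hb
      (by positivity : 0 ≤ (1 + δ) ^ k * (k * (2 ^ r * b + C * a ^ 2 * (1 + a) ^ r)))
      (fun j hj1 hj2 => ⟨hlow k (by omega) j hj1 hj2, hclow k (by omega) j hj1 hj2⟩)
      (h1 k (by omega)) (hc1 k (by omega)) (htop k (by omega)) ihk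
    refine NB_mono (u := chain w (k + 1)) h ?_
    have hp : 1 ≤ (1 + δ) ^ (k + 1) := one_le_pow₀ (by linarith)
    have e2 : (1 + 1 : ℝ) ^ r = 2 ^ r := by norm_num
    rw [e2]
    push_cast
    set X := 2 ^ r * b + C * a ^ 2 * (1 + a) ^ r with hXdef
    have e1 : (1 + δ) * ((1 + δ) ^ k * (k * X)) + 2 ^ r * b + C * a ^ 2 * (1 + a) ^ r =
        (1 + δ) ^ (k + 1) * (k * X) + X := by
      rw [hXdef]; ring
    rw [e1]
    have e3 : (1 + δ) ^ (k + 1) * (((k : ℝ) + 1) * X) =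
        (1 + δ) ^ (k + 1) * (k * X) + (1 + δ) ^ (k + 1) * X := by ring
    rw [e3]
    nlinarith

theorem pow_le_two {M : ℕ} {δ : ℝ} (hδ : 0 ≤ δ) (h : δ ≤ 1 / (2 * (M + 1))) : (1 + δ) ^ M ≤ 2 := by
  have h1 : (1 + δ) ^ M ≤ Real.exp (M * δ) := by
    rw [Real.exp_nat_mul]
    refine pow_le_pow_left₀ (by linarith) ?_ M
    linarith [Real.add_one_le_exp δ]
  have h2 : (M : ℝ) * δ ≤ 1 / 2 := by
    have hM : (0 : ℝ) < 2 * (M + 1) := by positivity
    rw [le_div_iff₀ hM] at h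
    nlinarith
  have h3 : Real.exp (M * δ) ≤ Real.exp (1 / 2) := Real.exp_le_exp.mpr h2
  have h4 : Real.exp (1 / 2) ≤ 2 := by
    have h5 : Real.exp (1 / 2) ^ 2 = Real.exp 1 := by
      rw [← Real.exp_nat_mul]; norm_num
    have h6 : Real.exp 1 < 2.7182818286 := Real.exp_one_lt_d9
    have h7 : 0 < Real.exp (1 / 2) := Real.exp_pos _
    by_contra hcon
    rw [not_le] at hcon
    nlinarith
  linarith

theorem ch2 (hE : S_EC0) (hC0 : S_CH0) : S_CH2 := by
  intro M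
  choose d hd hch using hC0
  -- the constant δ
  obtain ⟨δ, hδ0, hδd, hδM⟩ : ∃ δ : ℝ, 0 < δ ∧ (∀ k ≤ M, δ ≤ d k) ∧ δ ≤ 1 / (2 * ((M : ℝ) + 1)) := by
    have hne : (Finset.range (M + 1)).Nonempty := ⟨0, by simp⟩
    refine ⟨min ((Finset.range (M + 1)).inf' hne d) (1 / (2 * ((M : ℝ) + 1))), ?_, ?_, ?_⟩
    · refine lt_min ?_ (by positivity)
      rw [Finset.lt_inf'_iff]
      intro i _
      exact hd i
    · intro k hk
      exact (min_le_left _ _).trans (Finset.inf'_le _ (Finset.mem_range.mpr (by omega)))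
    · exact min_le_right _ _
  refine ⟨δ, hδ0, ?_⟩
  have hsm : ∀ w : ℕ → P2 → ℝ, (∀ i, ContDiff ℝ ∞ (w i)) → ∀ k, ContDiff ℝ ∞ (chain w k) :=
    fun w hw k => (hch k w w hw hw).1
  have hone : ∀ w : ℕ → P2 → ℝ, (∀ i, ContDiff ℝ ∞ (w i)) → (∀ i, i < M → NB 1 (w i) δ) →
      ∀ k ≤ M, NB 1 (chain w k) 1 := by
    intro w hw h1 k hk
    have h := (hch k w w hw hw).2.2.1 δ hδ0.le (hδd k hk) (fun i hi => h1 i (by omega))
    refine NB_mono h ?_
    have hM : (0 : ℝ) < 2 * (M + 1) := by positivity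
    have h2 := hδM
    rw [le_div_iff₀ hM] at h2
    have h3 : (k : ℝ) ≤ M := by exact_mod_cast hk
    nlinarith
  -- lower orders
  have key : ∀ (m : ℝ) (J : ℕ), ∃ c : ℝ, 0 ≤ c ∧ ∀ w : ℕ → P2 → ℝ, (∀ i, ContDiff ℝ ∞ (w i)) →
      (∀ i, i < M → NB 1 (w i) δ) → (∀ i, i < M → ∀ j : ℕ, 1 ≤ j → j ≤ J → NB j (w i) m) →
      ∀ k ≤ M, ∀ j : ℕ, 1 ≤ j → j ≤ J → NB j (chain w k) c := by
    intro m J
    induction J with
    | zero =>
      refine ⟨0, le_rfl, ?_⟩
      intro w _ _ _ k _ j h1 h2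
      omega
    | succ J ih =>
      obtain ⟨c, hc, ih⟩ := ih
      obtain ⟨C, hC, hEC⟩ := hE (J + 1) (by omega)
      set a := max c |m| with ha
      have ha0 : 0 ≤ a := le_max_of_le_left hc
      set X := 2 ^ (J + 1) * |m| + C * a ^ 2 * (1 + a) ^ (J + 1) with hX
      have hX0 : 0 ≤ X := by positivity
      refine ⟨max c (2 * (M * X)), le_max_of_le_left hc, ?_⟩
      intro w hw h1 hm k hk j hj1 hj2
      have hlowc := ih w hw h1 (fun i hi j hj hj' => hm i hi j hj (by omega))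
      rcases Nat.lt_or_ge j (J + 1) with hj | hj
      · exact NB_mono (hlowc k hk j hj1 (by omega)) (le_max_left _ _)
      · have hjJ : j = J + 1 := by omega
        subst hjJ
        have h := stepL (M := M) (r := J + 1) (by omega) hδ0.le hC hEC w hw
          (fun k _ => hsm w hw k) h1 (hone w hw h1) a |m| ha0 (abs_nonneg m)
          (fun i hi j hj hj' => NB_mono (hm i hi j hj (by omega))
            ((le_abs_self m).trans (le_max_right _ _)))
          (fun k hk j hj hj' => NB_mono (hlowc k hk j hj (by omega)) (le_max_left _ _))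
          (fun i hi => NB_mono (hm i hi (J + 1) (by omega) le_rfl) (le_abs_self m)) k hk
        refine NB_mono h ?_
        refine le_trans ?_ (le_max_right _ _)
        rw [← hX]
        have hp : (1 + δ) ^ k ≤ 2 :=
          (pow_le_pow_right₀ (by linarith) hk).trans (pow_le_two hδ0.le hδM)
        have hkM : (k : ℝ) * X ≤ M * X :=
          mul_le_mul_of_nonneg_right (by exact_mod_cast hk) hX0
        exact mul_le_mul hp hkM (by positivity) (by norm_num)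
  intro r m hr
  obtain ⟨c, hc, hkey⟩ := key m (r - 1)
  obtain ⟨C, hC, hEC⟩ := hE r (by omega)
  set a := max c |m| with ha
  have ha0 : 0 ≤ a := le_max_of_le_left hc
  refine ⟨max c (2 * (M * (C * a ^ 2 * (1 + a) ^ r))), le_max_of_le_left hc, ?_⟩
  intro w b hw hb h1 hm htop
  have hlowc := hkey w hw h1 (fun i hi j hj hj' => hm i hi j hj (by omega))
  refine ⟨?_, ?_⟩
  · have h := stepL (M := M) (r := r) (by omega) hδ0.le hC hEC w hw
      (fun k _ => hsm w hw k) h1 (hone w hw h1) a b ha0 hb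
      (fun i hi j hj hj' => NB_mono (hm i hi j hj hj')
        ((le_abs_self m).trans (le_max_right _ _)))
      (fun k hk j hj hj' => NB_mono (hlowc k hk j hj (by omega)) (le_max_left _ _))
      htop M le_rfl
    refine NB_mono h ?_
    have hp : (1 + δ) ^ M ≤ 2 := pow_le_two hδ0.le hδM
    have hX : 0 ≤ (M : ℝ) * (2 ^ r * b + C * a ^ 2 * (1 + a) ^ r) := by positivity
    calc (1 + δ) ^ M * (M * (2 ^ r * b + C * a ^ 2 * (1 + a) ^ r))
        ≤ 2 * (M * (2 ^ r * b + C * a ^ 2 * (1 + a) ^ r)) := mul_le_mul_of_nonneg_right hp hX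
      _ = 2 * M * 2 ^ r * b + 2 * (M * (C * a ^ 2 * (1 + a) ^ r)) := by ring
      _ ≤ _ := by
          have := le_max_right c (2 * (M * (C * a ^ 2 * (1 + a) ^ r)))
          linarith
  · intro j hj1 hj2
    exact NB_mono (hlowc M le_rfl j hj1 (by omega)) (le_max_left _ _)

end Pool.Agent.W214.DQ
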