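import Pool.Agent.W133.DQ.StC

set_option autoImplicit false

open scoped ContDiff
open Set Filter Topology

namespace Pool.Agent.W214.DQ

open Pool.Agent.W133.DQ

theorem nkill (hD : S_DPATH) (hS : S_STEP) (hF : S_FRAG) (hB : S_BOX) (hR : S_ROT) :
    S_NKILL := by
  intro L hL hrot
  have h1 : L 1 = 0 := by
    have h := hL 1 NP.one_mem 1 NP.one_mem
    rw [mul_one] at h
    linarith
  -- boxes
  have hbox : ∀ (c : P2) (r : ℝ), 0 < r → r < ‖c‖ → ∀ f ∈ DB c r, L f = 0 := by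
    intro c r hr hrc
    have hsub : ∀ f ∈ DB c r, f ∈ NP := by
      rintro f ⟨hf, r', hr', hfix⟩
      refine ⟨hf, ‖c‖ - r, by linarith, fun p hp => hfix p ?_⟩
      have h2 : ‖c‖ ≤ ‖p‖ + ‖p - c‖ := by
        have h3 : c = p - (p - c) := by abel
        calc ‖c‖ = ‖p - (p - c)‖ := by rw [← h3]
          _ ≤ ‖p‖ + ‖p - c‖ := norm_sub_le _ _
      linarith
    exact hB c r hr L (fun f hf g hg => hL f (hsub f hf) g (hsub g hg))
  intro f hf
  obtain ⟨k, F, hC, hF0, hF1, ε, hε, hFε⟩ := hD f hf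
  obtain ⟨hSP, -, -⟩ := hC
  obtain ⟨R, hRR⟩ := hSP.2.2
  have hFDC : ∀ t, F t ∈ DC := by
    intro t
    refine ⟨⟨?_, ?_⟩, R, fun p hp => hRR t p hp⟩
    · exact hSP.1.comp (contDiff_const.prodMk contDiff_id)
    · exact hSP.2.1.comp (contDiff_const.prodMk contDiff_id)
  have hFNP : ∀ t, F t ∈ NP := fun t => ⟨hFDC t, ε, hε, fun p hp => hFε t p hp⟩
  set R' : ℝ := max R 1 with hR'
  have hR'0 : 0 < R' := lt_of_lt_of_le one_pos (le_max_right _ _)
  obtain ⟨δ, hδ, hfr⟩ := hF L hL hbox ε R' hε hR'0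
  obtain ⟨N, hN, hst⟩ := hS F hSP δ hδ
  have hfix : ∀ t (p : P2), (‖p‖ < ε ∨ R' < ‖p‖) → F t p = p := by
    intro t p hp
    rcases hp with hp | hp
    · exact hFε t p hp
    · exact hRR t p (lt_of_le_of_lt (le_max_left _ _) hp)
  have hind : ∀ i : ℕ, i ≤ N → L (F ((i : ℝ) / N)) = 0 := by
    intro i
    induction i with
    | zero =>
      intro _
      rw [Nat.cast_zero, zero_div, hF0, h1]
    | succ i ih =>
      intro hi
      obtain ⟨a1, a2⟩ := hst i (by omega)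
      have hmem : F ((i + 1 : ℝ) / N) * (F ((i : ℝ) / N))⁻¹ ∈ DC :=
        DC.mul_mem (hFDC _) (DC.inv_mem (hFDC _))
      have hmemN : F ((i + 1 : ℝ) / N) * (F ((i : ℝ) / N))⁻¹ ∈ NP :=
        NP.mul_mem (hFNP _) (NP.inv_mem (hFNP _))
      have hz := hfr _ hmem (fun p hp => by
        have e1 : (F ((i : ℝ) / N))⁻¹ p = p := by
          rw [Equiv.Perm.inv_eq_iff_eq, hfix _ p hp]
        rw [Equiv.Perm.mul_apply, e1, hfix _ p hp]) a1 a2
      have h2 := hL _ hmemN _ (hFNP ((i : ℝ) / N))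
      rw [inv_mul_cancel_right, hz, ih (by omega), add_zero] at h2
      push_cast
      exact h2
  have hF1z : L (F 1) = 0 := by
    have h2 := hind N le_rfl
    have hN0 : (N : ℝ) ≠ 0 := by
      have : 0 < N := hN
      positivity
    rwa [div_self hN0] at h2
  have hrk : L (rot (2 * Real.pi * k)) = 0 := by
    let φ : ℤ →+ ℝ := AddMonoidHom.mk' (fun n : ℤ => L (rot (2 * Real.pi * n))) (by
      intro a b
      show L (rot (2 * Real.pi * ((a + b : ℤ) : ℝ))) = _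
      rw [Int.cast_add, mul_add, hR.2.2.1]
      exact hL _ (hR.2.2.2.2.1 a) _ (hR.2.2.2.2.1 b))
    have h2 : φ 1 = 0 := by
      show L (rot (2 * Real.pi * ((1 : ℤ) : ℝ))) = 0
      rw [Int.cast_one, mul_one]
      exact hrot
    have h3 : φ k = k • φ 1 := by
      rw [← map_zsmul, smul_eq_mul, mul_one]
    rw [h2, smul_zero] at h3
    exact h3
  have h4 := hL _ (hR.2.2.2.2.1 k) f hf
  rw [← hF1, hF1z, hrk] at h4
  linarith

end Pool.Agent.W214.DQ
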